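import Pool.Agent.FGT.Stmts

/-!
# Row MTP (MP_c4a8aa_al, squad FGT): mass transport along `T ^ j`
-/

set_option autoImplicit false

namespace Pool.Agent.FGT.H40

open Filter Topology Pool.Agent.H22.CIG Pool.Agent.H67.CIP Pool.Agent.H50.CIG MeasureTheory

universe u v

theorem mtp : MtpStmt.{u, v} := by
  intro X _ _ T L _ _ p ν _ hclo hmp _ _ j C hC
  obtain ⟨e, he⟩ := exists_surjective_nat L
  let B : ℕ → Set X := fun i => {x | p.n (e i) x = j}
  have hB : ∀ i, MeasurableSet (B i) := fun i =>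
    hclo _ ((isClopen_discrete ({j} : Set ℤ)).preimage (p.cont (e i)))
  have hBx : ∀ i x, x ∈ B i ↔ e i • x = (T ^ j) x := by
    intro i x
    constructor
    · intro h
      have h' : p.n (e i) x = j := h
      rw [p.eq, h']
    · intro h
      apply p.inj (x := x)
      rw [← p.eq, h]
  let A : ℕ → Set X := disjointed B
  have hA : ∀ i, MeasurableSet (A i) := fun i => MeasurableSet.disjointed hB i
  have hAB : ∀ i, A i ⊆ B i := fun i => disjointed_subset B i
  have hAU : ⋃ i, A i = ⋃ i, B i := iUnion_disjointed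
  have hAd : Pairwise (Function.onFun Disjoint A) := disjoint_disjointed B
  have hL : {x : X | (T ^ j) x ∈ C ∧ ∃ g : L, g • x = (T ^ j) x} =
      ⋃ i, (A i ∩ (fun x : X => e i • x) ⁻¹' C) := by
    ext x
    simp only [Set.mem_ofPred_eq, Set.mem_iUnion, Set.mem_inter_iff, Set.mem_preimage]
    constructor
    · rintro ⟨h1, g, h2⟩
      obtain ⟨l, rfl⟩ := he g
      have h3 : x ∈ ⋃ i, A i := by
        rw [hAU]
        exact Set.mem_iUnion.2 ⟨l, (hBx l x).2 h2⟩
      obtain ⟨i, hi⟩ := Set.mem_iUnion.1 h3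
      refine ⟨i, hi, ?_⟩
      rw [(hBx i x).1 (hAB i hi)]
      exact h1
    · rintro ⟨i, hi, h1⟩
      have h2 := (hBx i x).1 (hAB i hi)
      exact ⟨h2 ▸ h1, e i, h2⟩
  have hzz : ∀ y : X, (T ^ j) ((T ^ (-j)) y) = y := by
    intro y
    rw [← zpow_add_apply, add_neg_cancel, zpow_zero]
    rfl
  have hzz' : ∀ y : X, (T ^ (-j)) ((T ^ j) y) = y := by
    intro y
    rw [← zpow_add_apply, neg_add_cancel, zpow_zero]
    rfl
  have hR : {y : X | y ∈ C ∧ ∃ g : L, g • y = (T ^ (-j)) y} =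
      ⋃ i, (C ∩ (fun y : X => (e i)⁻¹ • y) ⁻¹' A i) := by
    ext y
    simp only [Set.mem_ofPred_eq, Set.mem_iUnion, Set.mem_inter_iff, Set.mem_preimage]
    constructor
    · rintro ⟨h1, g, h2⟩
      obtain ⟨l, hl⟩ := he g⁻¹
      have h3 : (T ^ (-j)) y ∈ ⋃ i, A i := by
        rw [hAU]
        refine Set.mem_iUnion.2 ⟨l, (hBx l _).2 ?_⟩
        rw [hzz, hl, ← h2, inv_smul_smul]
      obtain ⟨i, hi⟩ := Set.mem_iUnion.1 h3
      refine ⟨i, h1, ?_⟩
      have h4 := (hBx i _).1 (hAB i hi)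
      rw [hzz] at h4
      have h5 : (e i)⁻¹ • y = (T ^ (-j)) y := by
        rw [inv_smul_eq_iff, h4]
      rw [h5]
      exact hi
    · rintro ⟨i, h1, h2⟩
      refine ⟨h1, (e i)⁻¹, ?_⟩
      have h4 := (hBx i _).1 (hAB i h2)
      rw [smul_inv_smul] at h4
      rw [← hzz' ((e i)⁻¹ • y), ← h4]
  rw [hL, hR, measure_iUnion, measure_iUnion]
  · congr 1
    funext i
    have hS : MeasurableSet (C ∩ (fun y : X => (e i)⁻¹ • y) ⁻¹' A i) :=
      hC.inter ((hmp (e i)⁻¹).measurable (hA i))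
    rw [← (hmp (e i)).measure_preimage hS.nullMeasurableSet]
    congr 1
    ext x
    simp only [Set.mem_inter_iff, Set.mem_preimage, inv_smul_smul]
    exact and_comm
  · intro i l hil
    rw [Function.onFun, Set.disjoint_left]
    rintro y ⟨_, h1⟩ ⟨_, h2⟩
    have key : ∀ m, (e m)⁻¹ • y ∈ A m → (e m)⁻¹ • y = (T ^ (-j)) y := by
      intro m hm
      have h4 := (hBx m _).1 (hAB m hm)
      rw [smul_inv_smul] at h4
      rw [← hzz' ((e m)⁻¹ • y), ← h4]
    have h1' : (e i)⁻¹ • y ∈ A i := h1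
    have h2' : (e l)⁻¹ • y ∈ A l := h2
    rw [key i h1'] at h1'
    rw [key l h2'] at h2'
    exact Set.disjoint_left.1 (hAd hil) h1' h2'
  · intro i
    exact hC.inter ((hmp (e i)⁻¹).measurable (hA i))
  · intro i l hil
    rw [Function.onFun, Set.disjoint_left]
    rintro x ⟨h1, _⟩ ⟨h2, _⟩
    exact Set.disjoint_left.1 (hAd hil) h1 h2
  · intro i
    exact (hA i).inter ((hmp (e i)).measurable hC)

end Pool.Agent.FGT.H40
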